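import Mathlib

/-!
# MP_26672a_co: a two-level family whose deletion shadow is not minimal

For `r = s = 3`, `n = 4`, `k = 0`, `l = 1` the family `F_{s,k,l}` has `32` words and `17` words in
its deletion shadow, while the family of all words `a b c d` with `a, b` in `{1, 2}` and
`(c, d) ≠ (3, 3)` has `32` words as well and only `16` words in its deletion shadow.
-/

set_option autoImplicit false

namespace Pool.Agent.Results.MP_26672a_co.Counterexample

/-- The deletion shadow of a family of words of length `m + 1`: all words of length `m` obtained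
from a word of the family by deleting one letter (the one at position `i`). -/
def shadow {r m : ℕ} (F : Finset (Fin (m + 1) → Fin r)) : Finset (Fin m → Fin r) :=
  F.biUnion fun w => Finset.univ.image fun i : Fin (m + 1) => fun j : Fin m => w (i.succAbove j)

/-- `F` has minimal deletion shadow given its size. -/
def HasMinimalShadow {r m : ℕ} (F : Finset (Fin (m + 1) → Fin r)) : Prop :=
  ∀ G : Finset (Fin (m + 1) → Fin r), G.card = F.card → (shadow F).card ≤ (shadow G).card

/-- The number of positions of `w` equal to the symbol `x`, the symbols being `1, …, r`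
(the symbol `x` is the element `x - 1` of `Fin r`). -/
def cnt {r n : ℕ} (x : ℕ) (w : Fin n → Fin r) : ℕ :=
  (Finset.univ.filter fun i => (w i : ℕ) + 1 = x).card

/-- The two-level family `F_{s,k,l}` of words of length `n` over `{1, …, r}`. -/
def twoLevel (r n s k l : ℕ) : Finset (Fin n → Fin r) :=
  Finset.univ.filter fun w => (∀ i, (w i : ℕ) + 1 ≤ s) ∧
    (cnt s w ≤ k ∨ (cnt s w = k + 1 ∧ cnt (s - 1) w ≤ l))

/-- The competitor. -/
def comp : Finset (Fin 4 → Fin 3) :=
  Finset.univ.filter fun w => (w 0 : ℕ) < 2 ∧ (w 1 : ℕ) < 2 ∧ ¬ (w 2 = 2 ∧ w 3 = 2)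

theorem card_twoLevel : (twoLevel 3 4 3 0 1).card = 32 := by decide +kernel

theorem card_comp : comp.card = 32 := by decide +kernel

theorem card_shadow_twoLevel : (shadow (twoLevel 3 4 3 0 1)).card = 17 := by decide +kernel

theorem card_shadow_comp : (shadow comp).card = 16 := by decide +kernel

/-- It is not true that for all `r ≥ 2`, `n = m + 1 ≥ 2`, `2 ≤ s ≤ r`, `0 ≤ k ≤ n - 1` and
`0 ≤ l ≤ n - k - 1` the family `F_{s,k,l}` has minimal deletion shadow given its size. -/
theorem result : ¬ ∀ r m s k l : ℕ, 2 ≤ r → 2 ≤ m + 1 → 2 ≤ s → s ≤ r → k ≤ m + 1 - 1 →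
    l ≤ m + 1 - k - 1 → HasMinimalShadow (twoLevel r (m + 1) s k l) := by
  intro h
  have h1 := h 3 3 3 0 1 (by norm_num) (by norm_num) (by norm_num) (by norm_num) (by norm_num)
    (by norm_num) comp (by rw [card_comp, card_twoLevel])
  rw [card_shadow_twoLevel, card_shadow_comp] at h1
  omega

end Pool.Agent.Results.MP_26672a_co.Counterexample
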